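import Pool.Agent.H.MP_b892c7_gt.Ends
import Pool.Agent.H.MP_b892c7_gt.Embed

/-!
The embedding of a flat torus given by a basis of the lattice (copied from the proof file of the
frozen statement), and an elementary lemma.
-/

set_option autoImplicit false

namespace Pool.Agent.H.MP_b892c7_gt.helper19

open Pool.Agent.H.MP_b892c7_gt

/-- The embedding for a lattice given by a basis. -/
theorem embed_basis {d : Type*} [Fintype d] [DecidableEq d]
    {E : Type*} [NormedAddCommGroup E] [InnerProductSpace ℝ E]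
    [FiniteDimensional ℝ E] [MeasurableSpace E] [BorelSpace E] (b : Module.Basis d ℝ E) :
    ∃ f : E → lp (fun _ : ℕ => ℝ) 2, ∀ u v : E,
      (Real.pi / 4 * RR b (u - v) ^ 2 ≤ 264 * ‖f u - f v‖ ^ 2) ∧
      ∀ m, ‖f u - f v‖ ^ 2 ≤
        Real.pi * (2 * Fintype.card d * Real.log 2 + 1) * ‖(u - v) - lat b m‖ ^ 2 := by
  obtain ⟨N, T, A, hT, hA, hmain⟩ := main_bound b
  have hG := GS_dlat b
  have hpT : ∀ j, 0 < Real.pi * T j := fun j => mul_pos Real.pi_pos (hT j)
  let c : Fin N × (d → ℤ) → ℝ := fun p =>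
    A p.1 * (Real.exp (-(Real.pi * T p.1) * ‖dlat b p.2‖ ^ 2) /
      th (dlat b) (Real.pi * T p.1) 0)
  have hc : ∀ p, 0 ≤ c p := fun p => mul_nonneg (hA _)
    (div_nonneg (Real.exp_pos _).le (th_pos hG (hpT _) 0).le)
  have hcj : ∀ j : Fin N, Summable fun w => c (j, w) := fun j => by
    simp only [c]
    exact ((hG _ (hpT j)).div_const _).mul_left _
  have hs : Summable c := by
    rw [summable_prod_of_nonneg hc]
    exact ⟨hcj, (hasSum_fintype _).summable⟩
  obtain ⟨f, hf⟩ := embed c hc hs (fun p => dlat b p.2)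
  have hval : ∀ u v : E, ‖f u - f v‖ ^ 2
      = ∑ j ∈ Finset.range N, A j * eT b (T j) (u - v) := by
    intro u v
    rw [hf]
    have hsum : Summable fun p : Fin N × (d → ℤ) =>
        c p * (1 - Real.cos (2 * Real.pi * inner ℝ (dlat b p.2) (u - v))) := by
      refine Summable.of_nonneg_of_le (fun p => mul_nonneg (hc p) ?_) (fun p => ?_)
        (hs.mul_right 2)
      · linarith [Real.cos_le_one (2 * Real.pi * inner ℝ (dlat b p.2) (u - v))]
      · exact mul_le_mul_of_nonneg_left
          (by linarith [Real.neg_one_le_cos (2 * Real.pi * inner ℝ (dlat b p.2) (u - v))]) (hc p)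
    rw [hsum.tsum_prod, tsum_fintype, ← Fin.sum_univ_eq_sum_range
      (fun j => A j * eT b (T j) (u - v))]
    refine Finset.sum_congr rfl fun j _ => ?_
    unfold eT ee NN hh
    rw [← tsum_div_const, ← tsum_mul_left]
    refine tsum_congr fun w => ?_
    simp only [c]
    ring
  refine ⟨f, fun u v => ?_⟩
  rw [hval]
  exact hmain (u - v)

lemma le_of_sq {a b : ℝ} (h : a ^ 2 ≤ b ^ 2) (hb : 0 ≤ b) : a ≤ b :=
  le_of_abs_le (by simpa [abs_of_nonneg hb] using sq_le_sq.mp h)

end Pool.Agent.H.MP_b892c7_gt.helper19
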